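import Pool.Agent.Lib_MP_25a3c1_lb.Tree

/-!
# A job sequence for `m = 7`: every deterministic algorithm has ratio at least `12311 / 6876`
-/

set_option autoImplicit false

namespace Pool.Agent.Lib_MP_25a3c1

/-- the sizes of the jobs -/
def sevenP (i : ℕ) : ℕ := ([18, 18, 18, 18, 18, 18, 18, 69, 69, 69, 69, 69, 69, 69, 331, 331, 331, 331, 331, 331, 331, 1582, 1582, 1582, 1582, 1582, 1582, 1582, 3437, 3437, 3437, 3437, 3553, 3552, 6389, 6874] : List ℕ).getD i 1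

/-- the optimum of the first `n + 1` jobs -/
def sevenO (n : ℕ) : ℕ := ([18, 18, 18, 18, 18, 18, 18, 69, 69, 69, 69, 72, 87, 87, 331, 331, 331, 331, 331, 400, 418, 1582, 1582, 1582, 1582, 1582, 1913, 2000, 3437, 3437, 3495, 4746, 5019, 5019, 6601, 6876] : List ℕ).getD n 0

/-- optimal assignments -/
def sevenT : List (List (Fin 7)) := [
  [0, 1, 2, 3, 4, 5, 6],
  [4, 4, 4, 5, 5, 6, 6, 0, 1, 2, 3],
  [5, 5, 5, 5, 6, 6, 6, 0, 1, 2, 3, 4],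
  [0, 1, 2, 3, 4, 5, 6, 0, 1, 2, 3, 4, 5, 6],
  [5, 5, 6, 6, 6, 6, 6, 5, 5, 5, 5, 6, 6, 6, 0, 1, 2, 3, 4],
  [2, 2, 3, 3, 4, 5, 6, 0, 1, 6, 6, 6, 6, 6, 0, 1, 2, 3, 4, 5],
  [0, 1, 2, 3, 4, 5, 6, 0, 1, 2, 3, 4, 5, 6, 0, 1, 2, 3, 4, 5, 6],
  [5, 5, 5, 5, 6, 6, 6, 5, 6, 6, 6, 6, 6, 6, 5, 5, 5, 5, 6, 6, 6, 0, 1, 2, 3, 4],
  [5, 5, 5, 5, 6, 6, 6, 2, 2, 3, 3, 4, 4, 5, 0, 1, 6, 6, 6, 6, 6, 0, 1, 2, 3, 4, 5],
  [0, 1, 2, 3, 4, 5, 6, 0, 1, 2, 3, 4, 5, 6, 0, 1, 2, 3, 4, 5, 6, 0, 1, 2, 3, 4, 5, 6],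
  [5, 5, 6, 6, 6, 6, 6, 5, 5, 5, 5, 6, 6, 6, 4, 4, 4, 5, 5, 6, 6, 2, 2, 3, 3, 4, 5, 6, 0, 1],
  [0, 0, 1, 1, 2, 5, 6, 5, 5, 5, 5, 6, 6, 6, 3, 4, 6, 6, 6, 6, 6, 3, 3, 4, 4, 5, 5, 6, 0, 1, 2],
  [3, 3, 3, 3, 6, 6, 6, 0, 1, 2, 6, 6, 6, 6, 0, 1, 2, 3, 5, 5, 6, 4, 4, 4, 5, 5, 6, 6, 0, 1, 2, 3],
  [0, 0, 1, 1, 1, 6, 6, 0, 0, 0, 0, 0, 6, 6, 0, 0, 0, 1, 1, 1, 1, 2, 3, 4, 5, 6, 6, 6, 2, 3, 4, 5, 0, 1],
  [1, 2, 2, 6, 6, 6, 6, 1, 1, 2, 2, 6, 6, 6, 1, 2, 4, 4, 5, 5, 6, 1, 2, 3, 3, 4, 5, 6, 3, 4, 5, 6, 1, 2, 0],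
  [1, 2, 3, 3, 3, 3, 3, 1, 1, 2, 2, 3, 6, 6, 1, 6, 6, 6, 6, 6, 6, 2, 2, 3, 3, 6, 6, 6, 4, 4, 5, 5, 2, 3, 1, 0]]

/-- the optimal assignment of the first `n + 1` jobs -/
def sevenG (n i : ℕ) : Fin 7 :=
  ((sevenT.getD (([0, 0, 0, 0, 0, 0, 0, 1, 1, 1, 1, 2, 3, 3, 4, 4, 4, 4, 4, 5, 6, 7, 7, 7, 7, 7, 8, 9, 10, 10, 11, 12, 13, 13, 14, 15] : List ℕ).getD n 0) []).getD i 0)

/-- the surviving loads -/
def sevenS (n : ℕ) : List (List ℕ) := ([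
  [[0, 0, 0, 0, 0, 0, 0]],
  [[0, 0, 0, 0, 0, 0, 18]],
  [[0, 0, 0, 0, 0, 18, 18]],
  [[0, 0, 0, 0, 18, 18, 18]],
  [[0, 0, 0, 18, 18, 18, 18]],
  [[0, 0, 18, 18, 18, 18, 18]],
  [[0, 18, 18, 18, 18, 18, 18]],
  [[18, 18, 18, 18, 18, 18, 18]],
  [[18, 18, 18, 18, 18, 18, 87]],
  [[18, 18, 18, 18, 18, 87, 87]],
  [[18, 18, 18, 18, 87, 87, 87]],
  [[18, 18, 18, 87, 87, 87, 87]],
  [[18, 18, 87, 87, 87, 87, 87]],
  [[18, 87, 87, 87, 87, 87, 87]],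
  [[87, 87, 87, 87, 87, 87, 87]],
  [[87, 87, 87, 87, 87, 87, 418]],
  [[87, 87, 87, 87, 87, 418, 418]],
  [[87, 87, 87, 87, 418, 418, 418]],
  [[87, 87, 87, 418, 418, 418, 418]],
  [[87, 87, 418, 418, 418, 418, 418]],
  [[87, 418, 418, 418, 418, 418, 418]],
  [[418, 418, 418, 418, 418, 418, 418]],
  [[418, 418, 418, 418, 418, 418, 2000]],
  [[418, 418, 418, 418, 418, 2000, 2000]],
  [[418, 418, 418, 418, 2000, 2000, 2000]],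
  [[418, 418, 418, 2000, 2000, 2000, 2000]],
  [[418, 418, 2000, 2000, 2000, 2000, 2000]],
  [[418, 2000, 2000, 2000, 2000, 2000, 2000]],
  [[2000, 2000, 2000, 2000, 2000, 2000, 2000]],
  [[2000, 2000, 2000, 2000, 2000, 2000, 5437]],
  [[2000, 2000, 2000, 2000, 2000, 5437, 5437]],
  [[2000, 2000, 2000, 2000, 5437, 5437, 5437]],
  [[2000, 2000, 2000, 5437, 5437, 5437, 5437]],
  [[2000, 2000, 5437, 5437, 5437, 5437, 5553]],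
  [[2000, 5437, 5437, 5437, 5437, 5552, 5553]],
  [[5437, 5437, 5437, 5437, 5552, 5553, 8389]],
  []] : List (List (List ℕ))).getD n []

theorem seven_check : Check 7 36 12311 6876 sevenP sevenO sevenG sevenS where
  pos i := getD_pos _ (by decide) i
  pack := by decide +kernel
  init := by decide +kernel
  step := by decide +kernel
  last := by decide +kernel

/-- Every deterministic online algorithm for 7 machines has competitive ratio at least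
`12311 / 6876`, already against sequences of 36 jobs. -/
theorem seven_lower (A : Online 7) (c : ℝ) (hc : Competitive 7 36 A.cost c) :
    (12311 : ℝ) / 6876 ≤ c := by
  have h := seven_check.lower (by norm_num) (by norm_num) A c fun n hn =>
    hc _ n (fun i => by exact_mod_cast seven_check.pos i) hn
  exact_mod_cast h

end Pool.Agent.Lib_MP_25a3c1
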