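import Pool.Agent.Lib_MP_25a3c1_lb.Tree

/-!
# A job sequence for `m = 6`: every deterministic algorithm has ratio at least `2639 / 1489`
-/

set_option autoImplicit false

namespace Pool.Agent.Lib_MP_25a3c1

/-- the sizes of the jobs -/
def sixP (i : ℕ) : ℕ := ([77, 77, 77, 77, 77, 77, 262, 262, 262, 262, 262, 262, 1150, 1150, 1150, 1150, 1150, 1150, 2731, 2731, 2731, 2731, 2731, 4707, 5463] : List ℕ).getD i 1

/-- the optimum of the first `n + 1` jobs -/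
def sixO (n : ℕ) : ℕ := ([77, 77, 77, 77, 77, 77, 262, 262, 262, 262, 339, 339, 1150, 1150, 1150, 1150, 1412, 1489, 2731, 2731, 2885, 3450, 3881, 5031, 5463] : List ℕ).getD n 0

/-- optimal assignments -/
def sixT : List (List (Fin 6)) := [
  [0, 1, 2, 3, 4, 5],
  [4, 4, 4, 5, 5, 5, 0, 1, 2, 3],
  [0, 1, 2, 3, 4, 5, 0, 1, 2, 3, 4, 5],
  [4, 5, 5, 5, 5, 5, 4, 4, 4, 4, 5, 5, 0, 1, 2, 3],
  [5, 5, 5, 5, 5, 5, 0, 1, 2, 3, 4, 5, 0, 1, 2, 3, 4],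
  [0, 1, 2, 3, 4, 5, 0, 1, 2, 3, 4, 5, 0, 1, 2, 3, 4, 5],
  [2, 2, 3, 3, 4, 4, 2, 3, 4, 5, 5, 5, 2, 2, 3, 3, 4, 4, 0, 1],
  [0, 0, 1, 1, 2, 2, 3, 3, 4, 4, 5, 5, 3, 3, 4, 4, 5, 5, 0, 1, 2],
  [0, 0, 1, 1, 2, 2, 0, 0, 1, 1, 2, 2, 4, 4, 4, 5, 5, 5, 0, 1, 2, 3],
  [5, 5, 5, 5, 5, 5, 5, 5, 5, 5, 5, 5, 0, 1, 2, 3, 4, 5, 0, 1, 2, 3, 4],
  [4, 4, 4, 4, 4, 4, 0, 4, 4, 4, 4, 4, 1, 1, 2, 2, 3, 3, 1, 2, 3, 4, 5, 0],
  [1, 1, 1, 4, 4, 5, 1, 1, 4, 5, 5, 5, 4, 4, 5, 5, 5, 5, 2, 2, 3, 3, 4, 1, 0]]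

/-- the optimal assignment of the first `n + 1` jobs -/
def sixG (n i : ℕ) : Fin 6 :=
  ((sixT.getD (([0, 0, 0, 0, 0, 0, 1, 1, 1, 1, 2, 2, 3, 3, 3, 3, 4, 5, 6, 6, 7, 8, 9, 10, 11] : List ℕ).getD n 0) []).getD i 0)

/-- the surviving loads -/
def sixS (n : ℕ) : List (List ℕ) := ([
  [[0, 0, 0, 0, 0, 0]],
  [[0, 0, 0, 0, 0, 77]],
  [[0, 0, 0, 0, 77, 77]],
  [[0, 0, 0, 77, 77, 77]],
  [[0, 0, 77, 77, 77, 77]],
  [[0, 77, 77, 77, 77, 77]],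
  [[77, 77, 77, 77, 77, 77]],
  [[77, 77, 77, 77, 77, 339]],
  [[77, 77, 77, 77, 339, 339]],
  [[77, 77, 77, 339, 339, 339]],
  [[77, 77, 339, 339, 339, 339]],
  [[77, 339, 339, 339, 339, 339]],
  [[339, 339, 339, 339, 339, 339]],
  [[339, 339, 339, 339, 339, 1489]],
  [[339, 339, 339, 339, 1489, 1489]],
  [[339, 339, 339, 1489, 1489, 1489]],
  [[339, 339, 1489, 1489, 1489, 1489]],
  [[339, 1489, 1489, 1489, 1489, 1489]],
  [[1489, 1489, 1489, 1489, 1489, 1489]],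
  [[1489, 1489, 1489, 1489, 1489, 4220]],
  [[1489, 1489, 1489, 1489, 4220, 4220]],
  [[1489, 1489, 1489, 4220, 4220, 4220]],
  [[1489, 1489, 4220, 4220, 4220, 4220]],
  [[1489, 4220, 4220, 4220, 4220, 4220]],
  [[4220, 4220, 4220, 4220, 4220, 6196]],
  []] : List (List (List ℕ))).getD n []

theorem six_check : Check 6 25 2639 1489 sixP sixO sixG sixS where
  pos i := getD_pos _ (by decide) i
  pack := by decide +kernel
  init := by decide +kernel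
  step := by decide +kernel
  last := by decide +kernel

/-- Every deterministic online algorithm for 6 machines has competitive ratio at least
`2639 / 1489`, already against sequences of 25 jobs. -/
theorem six_lower (A : Online 6) (c : ℝ) (hc : Competitive 6 25 A.cost c) :
    (2639 : ℝ) / 1489 ≤ c := by
  have h := six_check.lower (by norm_num) (by norm_num) A c fun n hn =>
    hc _ n (fun i => by exact_mod_cast six_check.pos i) hn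
  exact_mod_cast h

end Pool.Agent.Lib_MP_25a3c1
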