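import Pool.Agent.Lib_MP_25a3c1.Basic

/-!
# Deterministic lower bounds from one fixed job sequence with a finite list of surviving states

`P n` is the size of job `n`, `O n` an upper bound of the optimum of the first `n + 1` jobs
(certified by the assignments `G n`), `S n` a list of load vectors: every assignment of the first
`n` jobs with all loads below `a / b` times the optimum at all times has its loads in `S n`.
If `S N` is empty then every deterministic algorithm has a ratio at least `a / b`.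
-/

set_option autoImplicit false

namespace Pool.Agent.Lib_MP_25a3c1

theorem getD_pos (L : List ℕ) (h : ∀ x ∈ L, 0 < x) (i : ℕ) : 0 < L.getD i 1 := by
  rcases lt_or_ge i L.length with hi | hi
  · rw [List.getD_eq_getElem _ _ hi]
    exact h _ (List.getElem_mem hi)
  · rw [List.getD_eq_default _ _ hi]
    norm_num

/-- the load of machine `j` after `n` jobs -/
def ld {m : ℕ} (f : ℕ → Fin m) (P : ℕ → ℕ) : ℕ → Fin m → ℕ
  | 0, _ => 0
  | n + 1, j => ld f P n j + if f n = j then P n else 0

theorem ld_eq {m : ℕ} (f : ℕ → Fin m) (P : ℕ → ℕ) (n : ℕ) (j : Fin m) :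
    (ld f P n j : ℝ) = ∑ i ∈ Finset.range n, if f i = j then (P i : ℝ) else 0 := by
  induction n with
  | zero => simp [ld]
  | succ n ih =>
    rw [Finset.sum_range_succ, ← ih, ld]
    push_cast
    rfl

/-- the loads after `n` jobs -/
def ms {m : ℕ} (f : ℕ → Fin m) (P : ℕ → ℕ) (n : ℕ) : Multiset ℕ :=
  (Finset.univ : Finset (Fin m)).val.map (ld f P n)

theorem ms_zero {m : ℕ} (f : ℕ → Fin m) (P : ℕ → ℕ) : ms f P 0 = Multiset.replicate m 0 := by
  rw [Multiset.eq_replicate]
  constructor
  · simp [ms]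
  · intro b hb
    obtain ⟨j, -, rfl⟩ := Multiset.mem_map.1 hb
    rfl

theorem ld_mem_ms {m : ℕ} (f : ℕ → Fin m) (P : ℕ → ℕ) (n : ℕ) (j : Fin m) :
    ld f P n j ∈ ms f P n :=
  Multiset.mem_map_of_mem _ (Finset.mem_univ j)

theorem ms_succ {m : ℕ} (f : ℕ → Fin m) (P : ℕ → ℕ) (n : ℕ) :
    ms f P (n + 1) = (ld f P n (f n) + P n) ::ₘ (ms f P n).erase (ld f P n (f n)) := by
  have h1 : (Finset.univ : Finset (Fin m)).val =
      f n ::ₘ (Finset.univ : Finset (Fin m)).val.erase (f n) :=
    (Multiset.cons_erase (Finset.mem_univ (f n))).symm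
  have h2 : ms f P n = ld f P n (f n) ::ₘ
      ((Finset.univ : Finset (Fin m)).val.erase (f n)).map (ld f P n) := by
    unfold ms
    conv_lhs => rw [h1]
    rw [Multiset.map_cons]
  have h3 : ms f P (n + 1) = (ld f P n (f n) + P n) ::ₘ
      ((Finset.univ : Finset (Fin m)).val.erase (f n)).map (ld f P (n + 1)) := by
    unfold ms
    conv_lhs => rw [h1]
    rw [Multiset.map_cons]
    congr 1
    simp [ld]
  rw [h3, h2, Multiset.erase_cons_head]
  congr 1
  refine Multiset.map_congr rfl fun j hj => ?_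
  have hj' : j ≠ f n := by
    intro h
    rw [h] at hj
    exact Multiset.Nodup.notMem_erase (Finset.univ : Finset (Fin m)).nodup hj
  simp [ld, Ne.symm hj']

/-- the check of a fixed job sequence -/
structure Check (m N a b : ℕ) (P O : ℕ → ℕ) (G : ℕ → ℕ → Fin m) (S : ℕ → List (List ℕ)) :
    Prop where
  pos : ∀ i, 0 < P i
  pack : ∀ n < N, ∀ j, ld (G n) P (n + 1) j ≤ O n
  init : List.replicate m 0 ∈ S 0
  step : ∀ n < N, ∀ s ∈ S n, ∀ x ∈ s, b * (x + P n) < a * O n →
    ∃ t ∈ S (n + 1), List.Perm ((x + P n) :: s.erase x) t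
  last : S N = []

theorem Check.lower {m N a b : ℕ} {P O : ℕ → ℕ} {G : ℕ → ℕ → Fin m} {S : ℕ → List (List ℕ)}
    (h : Check m N a b P O G S) (hm : 0 < m) (hb : 0 < b) (A : Online m) (c : ℝ)
    (hc : ∀ n ≤ N, A.cost (fun i => (P i : ℝ)) n ≤ c * opt m (fun i => (P i : ℝ)) n) :
    (a : ℝ) / b ≤ c := by
  by_contra hlt
  push Not at hlt
  have hb' : (0 : ℝ) < b := by exact_mod_cast hb
  have hp : ∀ i, (0 : ℝ) < (P i : ℝ) := fun i => by exact_mod_cast h.pos i
  set p : ℕ → ℝ := fun i => (P i : ℝ) with hpdef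
  set f : ℕ → Fin m := fun i => A.place i p with hf
  -- all loads are small
  have hload : ∀ n < N, ∀ j, b * ld f P (n + 1) j < a * O n := by
    intro n hn j
    have h1 : (ld f P (n + 1) j : ℝ) ≤ A.cost p (n + 1) := by
      rw [ld_eq]
      exact load_le_makespan f p (n + 1) j
    have h2 : opt m p (n + 1) ≤ O n := by
      refine (opt_le hm hp (n + 1) (G n)).trans (makespan_le hm _ _ _ _ fun j => ?_)
      have h3 := ld_eq (G n) P (n + 1) j
      have h4 := h.pack n hn j
      rw [← h3]
      exact_mod_cast h4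
    have h3 : 0 < opt m p (n + 1) :=
      (hp 0).trans_le (job_le_opt hm hp (Nat.succ_pos n))
    have h4 := hc (n + 1) hn
    have h5 : c * opt m p (n + 1) < a / b * opt m p (n + 1) := mul_lt_mul_of_pos_right hlt h3
    have h6 : (a : ℝ) / b * opt m p (n + 1) ≤ a / b * O n :=
      mul_le_mul_of_nonneg_left h2 (by positivity)
    have h7 : (ld f P (n + 1) j : ℝ) < a / b * O n := by linarith
    rw [div_mul_eq_mul_div, lt_div_iff₀ hb'] at h7
    have h8 : ((b * ld f P (n + 1) j : ℕ) : ℝ) < ((a * O n : ℕ) : ℝ) := by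
      push_cast
      linarith
    exact_mod_cast h8
  -- the loads are in the list
  have hmem : ∀ n ≤ N, ∃ s ∈ S n, ms f P n = (s : Multiset ℕ) := by
    intro n
    induction n with
    | zero =>
      intro _
      exact ⟨_, h.init, by rw [ms_zero]; rfl⟩
    | succ n ih =>
      intro hn
      obtain ⟨s, hs, hms⟩ := ih (Nat.le_of_succ_le hn)
      have hx : ld f P n (f n) ∈ s := by
        have := ld_mem_ms f P n (f n)
        rw [hms] at this
        exact this
      have hl := hload n hn (f n)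
      have hl' : ld f P (n + 1) (f n) = ld f P n (f n) + P n := by simp [ld]
      rw [hl'] at hl
      obtain ⟨t, ht, hperm⟩ := h.step n hn s hs _ hx hl
      refine ⟨t, ht, ?_⟩
      rw [ms_succ, hms, Multiset.coe_erase, Multiset.cons_coe]
      exact Quotient.sound hperm
  obtain ⟨s, hs, -⟩ := hmem N le_rfl
  rw [h.last] at hs
  exact absurd hs List.not_mem_nil

end Pool.Agent.Lib_MP_25a3c1
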